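import Pool.Agent.Helper8.TB.St

/-!
# Module Sup of project TB: the support inequality for vectors
-/

set_option autoImplicit false

namespace Pool.Agent.Helper36.TB

open Pool.Helper8.TB MeasureTheory

private lemma sq_le_one' {n : ℕ} {ν e : W n} (he : ‖e‖ = 1) (hν : ‖ν‖ = 1) :
    (inner ℝ ν e : ℝ) ^ 2 ≤ 1 := by
  have h := abs_real_inner_le_norm ν e
  rw [he, hν, mul_one] at h
  have := abs_le.mp h
  nlinarith [this.1, this.2]

private lemma norm_sub' {n : ℕ} {ν e : W n} (he : ‖e‖ = 1) (hν : ‖ν‖ = 1) :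
    ‖ν - (inner ℝ ν e : ℝ) • e‖ = Real.sqrt (1 - (inner ℝ ν e : ℝ) ^ 2) := by
  have h : ‖ν - (inner ℝ ν e : ℝ) • e‖ ^ 2 = 1 - (inner ℝ ν e : ℝ) ^ 2 := by
    rw [@norm_sub_sq_real, inner_smul_right, norm_smul, he, hν, Real.norm_eq_abs, mul_one, sq_abs]
    ring
  rw [← h, Real.sqrt_sq (norm_nonneg _)]

private lemma inner_le' {n : ℕ} {ν ω e : W n} (he : ‖e‖ = 1) (hν : ‖ν‖ = 1) (hω : ‖ω‖ = 1) :
    (inner ℝ ν ω : ℝ) ≤ inner ℝ ν e * inner ℝ ω e +
      Real.sqrt (1 - (inner ℝ ν e : ℝ) ^ 2) * Real.sqrt (1 - (inner ℝ ω e : ℝ) ^ 2) := by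
  have h := real_inner_le_norm (ν - (inner ℝ ν e : ℝ) • e) (ω - (inner ℝ ω e : ℝ) • e)
  rw [norm_sub' he hν, norm_sub' he hω] at h
  have h2 : (inner ℝ (ν - (inner ℝ ν e : ℝ) • e) (ω - (inner ℝ ω e : ℝ) • e) : ℝ) =
      inner ℝ ν ω - inner ℝ ν e * inner ℝ ω e := by
    rw [inner_sub_left, inner_sub_right, inner_sub_right, inner_smul_left, inner_smul_right,
      inner_smul_left, inner_smul_right, real_inner_self_eq_norm_sq, he, real_inner_comm e ω]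
    simp only [conj_trivial]
    ring
  rw [h2] at h
  linarith

theorem hSup : StAng → StSup := by
  intro hA n m τ ε q q1 p r D e ν ω he hν hω
  have h1 := inner_le' he hν hω
  obtain ⟨h2, h3⟩ := hA m τ ε q q1 p r D (inner ℝ ν e) (inner ℝ ω e) (sq_le_one' he hν) (sq_le_one' he hω)
  have hq := D.pos (inner ℝ ν e)
  have hX : (inner ℝ (X q p e ν) ω : ℝ) =
      q (inner ℝ ν e) * inner ℝ ν ω + p (inner ℝ ν e) * inner ℝ ω e := by
    rw [X, inner_add_left, inner_smul_left, inner_smul_left, real_inner_comm ω e]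
    simp
  have hle : q (inner ℝ ν e) * inner ℝ ν ω ≤ q (inner ℝ ν e) * (inner ℝ ν e * inner ℝ ω e +
      Real.sqrt (1 - (inner ℝ ν e : ℝ) ^ 2) * Real.sqrt (1 - (inner ℝ ω e : ℝ) ^ 2)) :=
    mul_le_mul_of_nonneg_left h1 hq.le
  rw [hX, hh]
  refine ⟨by linarith, fun heq => ?_⟩
  have hts : (inner ℝ ν e : ℝ) = inner ℝ ω e := h3 (by linarith)
  rw [← hts] at heq
  have h5 : q (inner ℝ ν e) * ((inner ℝ ν ω : ℝ) - 1) = 0 := by linarith
  rcases mul_eq_zero.mp h5 with h6 | h6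
  · exact absurd h6 hq.ne'
  · exact (inner_eq_one_iff_of_norm_eq_one (𝕜 := ℝ) hν hω).mp (sub_eq_zero.mp h6)

end Pool.Agent.Helper36.TB
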